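import Pool.Agent.N18.KM.Pink
import Pool.Agent.N24.RW.All
import Pool.Agent.N24.KM.All

/-!
# MP_28d749_ag: Pink's conjecture for families of subvarieties of the powers of elliptic schemes with
# several integral parameters, along arbitrary sequences, for almost all multipliers

**The abelian scheme.** The base is the space of all `b = (b_1, b_2, …, b_{2+r}) ∈ ℂ^(2+r)` with
`4 b_1³ + 27 b_2² ≠ 0`, and the fibre at `b` is the `q`-th power of the elliptic curve
`y² = x³ + b_1 x + b_2` (`curve`). By restriction one gets the `q`-th fibre power `𝒜` of any elliptic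
scheme over any affine variety. A point `(P_1, …, P_q)` of the fibre at `b` has the coordinates
`(b, x(P_1), …, x(P_q))` (`point`); they determine it up to the signs of the `P_l`.

**Families.** Let `F` be a finite system of polynomials in these `2 + r + q` coordinates and `N`
auxiliary coordinates, with the exponents `supp j` and the coefficients `c j β`, which are polynomials in
`1 + s` variables `t = (t_0; t_1, …, t_s)` with integral coefficients. For `t ∈ ℤ^(1+s)` the member
`X_t` (`OnX`) is the set of the points of `𝒜` with all `P_l` different from the origin for which there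
is a `y ∈ ℂ^N` such that all polynomials of the system, with the coefficients evaluated at `t`, vanish at
`(b, x(P), y)`. So `(X_t)` can be any family of subvarieties of `𝒜`, stable under the signs of the
`P_l`, minus the zero sections, or of images of varieties, which depends algebraically on `1 + s`
parameters.

**Tropicalizations at hypersurfaces.** Let `h_1, …, h_M` be polynomials in `t` of degree one in `t_0`
(their coefficients can be any polynomials in `t_1, …, t_s`). Suppose that each coefficient is
`c = h_l ^ e_l(c) · g`, where `g` has no common factor of positive degree in `t_0` with `h_l` (`HasOrd`,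
`CoprimeTo`). The tropicalization along `h_l` is the set of the points `w` of
`(ℚ ∪ {∞})^(2+r+q+N)` such that for every polynomial of the system the minimum of the numbers
`e_l (coefficient) + β · w` is attained at two different exponents or is infinite (`TropAt`).

**The condition** (`GenericP`). Let `m` be an integer, the dimension of the `X_t`. For `ρ ≥ 0` a point
`w` is called `ρ`-independent (`Independent`) if there are a set `J` of more than `q - ρ` indices and a
rational number `μ` with `2 μ ≤ w(b_1)`, `3 μ ≤ w(b_2)` and `w(x_j) + 1/2 < μ` for `j ∈ J`, and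
`w(x_i) - w(x_j)` is not an integer for different `i, j ∈ J`. The condition is: for every set `T` of
coordinates (of the base or abscissas) and every `ρ ≥ 0` with `|T| + ρ = m + 1` there are an `l` and
rational numbers `τ_i`, `i ∈ T`, such that every point `w` of the tropicalization along `h_l` with
`w_i = τ_i` for `i ∈ T` is `ρ`-independent.

**Theorem.** A sequence `c_0, c_1, …` of vectors in `ℤ^(1+s)` is called good (`Good`) if there is ONE set
`E` of indices of natural density zero, such that for ALL families as above with the condition (all
`r`, `q`, `N`, `m`, all systems of equations) the member `X_t` at `t = c_x` has no atypical intersection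
with algebraic subgroups of the fibres, for all but finitely many `x ∉ E`: for every `ρ` every
irreducible constructible subset of `X_t ∩ 𝒜^[≥ρ]` has dimension at most `m - ρ`, and the points of
`X_t ∩ 𝒜^[≥ρ]` have transcendence degree at most `m - ρ` over `ℚ` (`NoAtypicalP`). In particular
`X_t ∩ 𝒜^[>m]` is empty, as in Pink's conjecture, and (`ρ = 1`) no component of dimension `m` of `X_t` is
contained in a strict group subscheme.

1. Let `f_{i,0}, f_{i,1}, …` (`i ≤ s`) be functions which satisfy the hypothesis of Koksma's theorem on
   `[a_i, b_i]` (`Koksma`). Then `c_x = (⌊f_{i,x}(α_i)⌋)_i` is good for almost all `α` with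
   `a_i ≤ α_i ≤ b_i`.
2. Let `a_{i,0}, a_{i,1}, …` (`i ≤ s`) be ANY sequences of real numbers with mutual distances at least
   `δ > 0`, for example any sequences of different integers (`x!`, `2 ^ x`, any enumeration of any
   infinite set of integers or of primes), and possibly all the same. Then `c_x = (⌊a_{i,x} α_i⌋)_i` is
   good for almost all `α ∈ ℝ^(1+s)`.
3. Let `k_0, k_1, …` be ANY sequence of different natural numbers, and `ξ_i ≠ 0`. Then
   `c_x = (⌊ξ_i α_i ^ k_x⌋)_i` is good for almost all `α` with all `α_i > 1`.

The starting file `ManyParameters` is about almost all parameters in a box, for one family and for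
hyperplanes `h_l = 0`. Here there is no condition of growth or regularity: the sequences can grow
arbitrarily fast, and there is one exceptional set for all families.

Proof. A set of integral vectors is pronull if its closure in the product of the `ℤ_p^(1+s)` over the
primes `p` which do not divide `M` has Haar measure zero, for all `M`. For `h` of degree one in `t_0` and
`g` coprime to `h` the vectors `t` such that no prime divides `h(t)` exactly once and does not divide
`g(t)` are a pronull set: the density of the suitable residue classes modulo `p²` is at least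
`1 / (4 p)` (helper514), and the engine of helper24, helper300 and helper765 applies. By the theorem of
Koksma in several variables almost all metric sequences are in this set only for indices of density
zero (helper24 with the workers of the project KM). There are countably many `(h, g)`, and a diagonal
argument gives one set `E`. For the other indices the tropical criterion of the starting library
applies with the primes `p_l`.
-/

set_option autoImplicit false

namespace Pool.Agent.Results.MP_28d749_ag.MetricSequences

open MeasureTheory Filter Topology Pool.Agent.R424.MP Pool.Agent.R424.PT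
open Pool.Agent.Results.MP_28d749_ag.RandomMultisections (curve)

/-- The hypothesis of Koksma's theorem: the functions `f n` are twice continuously differentiable, the
derivatives of different ones differ by at least `δ > 0` on `[a, b]`, and the second derivative of
`f m - f n` does not change its sign there. -/
def Koksma (a b : ℝ) (f : ℕ → ℝ → ℝ) : Prop :=
  (∀ n, ContDiff ℝ 2 (f n)) ∧ ∃ δ : ℝ, 0 < δ ∧ ∀ m n : ℕ, m ≠ n →
    (∀ x ∈ Set.Icc a b, δ ≤ |deriv (f m) x - deriv (f n) x|) ∧
    ((∀ x ∈ Set.Icc a b, deriv (deriv (f n)) x ≤ deriv (deriv (f m)) x) ∨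
      ∀ x ∈ Set.Icc a b, deriv (deriv (f m)) x ≤ deriv (deriv (f n)) x)

/-- `E` has natural density zero. -/
def DensityZero (E : Set ℕ) : Prop :=
  Tendsto (fun N : ℕ => (({x : ℕ | x < N ∧ x ∈ E}.ncard : ℕ) : ℝ) / (N : ℝ)) atTop (𝓝 0)

/-- The members with the parameters `v 0, v 1, …` of ALL families over `ℤ[t_0, …, t_s]` which satisfy
the condition have no atypical intersections with algebraic subgroups of the fibres, apart from the
indices in one set of density zero and finitely many more, depending on the family. -/
def Good {s : ℕ} (v : ℕ → Fin (s + 1) → ℤ) : Prop :=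
  ∃ E : Set ℕ, DensityZero E ∧
    ∀ (κ : Type) [Finite κ] (r q N m M : ℕ)
      (supp : κ → Finset ((Coord r q ⊕ Fin N) →₀ ℕ))
      (c : κ → ((Coord r q ⊕ Fin N) →₀ ℕ) → Polynomial (MvPolynomial (Fin s) ℤ))
      (h : Fin M → Polynomial (MvPolynomial (Fin s) ℤ)) (_ : ∀ l, (h l).natDegree = 1)
      (e : Fin M → κ → ((Coord r q ⊕ Fin N) →₀ ℕ) → ℕ)
      (_ : ∀ l j, ∀ β ∈ supp j, HasOrd (h l) (c j β) (e l j β)) (_ : GenericP m supp e),
      {x : ℕ | x ∉ E ∧
        ¬ NoAtypicalP m (OnX supp
            (fun j β => ((ev (v x 0) (fun i => v x i.succ) (c j β) : ℤ) : ℂ)) :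
          ∀ z : Fin 2 ⊕ Fin r → ℂ, (Fin q → (curve (z (Sum.inl 0)) (z (Sum.inl 1))).Point) →
            Prop)}.Finite

theorem good_of {s : ℕ} (v : ℕ → Fin (s + 1) → ℤ) (E : Set ℕ)
    (hE : Tendsto (fun N : ℕ => (({n : ℕ | n < N ∧ n ∈ E}.ncard : ℕ) : ℝ) / (N : ℝ)) atTop (𝓝 0))
    (hh : ∀ h G : Polynomial (MvPolynomial (Fin s) ℤ), h.natDegree = 1 → CoprimeTo h G →
      {n : ℕ | n ∉ E ∧ ¬ ∃ p : ℕ, p.Prime ∧ Pool.Agent.N514.TH.Ok h G p (v n)}.Finite) : Good v := by
  refine ⟨E, hE, ?_⟩
  intro κ _ r q N m M supp c h hdeg e he hgen
  obtain ⟨G, hG, hloc⟩ := Pool.Agent.N18.KM.local_pink supp c h e he hgen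
  refine (Set.finite_iUnion fun l : Fin M => hh (h l) (G l) (hdeg l) (hG l)).subset ?_
  rintro x ⟨hxE, hx⟩
  by_contra hcon
  apply hx
  exact hloc (v x) fun l => by_contra fun h' => hcon (Set.mem_iUnion.2 ⟨l, hxE, h'⟩)

theorem result (s : ℕ) :
    (∀ (a b : Fin (s + 1) → ℝ) (f : Fin (s + 1) → ℕ → ℝ → ℝ), (∀ i, a i < b i) →
      (∀ i, Koksma (a i) (b i) (f i)) →
      ∀ᵐ α : Fin (s + 1) → ℝ, (∀ i, α i ∈ Set.Icc (a i) (b i)) → Good fun x i => ⌊f i x (α i)⌋) ∧
    (∀ (a : Fin (s + 1) → ℕ → ℝ) (δ : ℝ), 0 < δ → (∀ i m n, m ≠ n → δ ≤ |a i m - a i n|) →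
      ∀ᵐ α : Fin (s + 1) → ℝ, Good fun x i => ⌊a i x * α i⌋) ∧
    (∀ (k : ℕ → ℕ) (ξ : Fin (s + 1) → ℝ), Function.Injective k → (∀ i, ξ i ≠ 0) →
      ∀ᵐ α : Fin (s + 1) → ℝ, (∀ i, 1 < α i) → Good fun x i => ⌊ξ i * α i ^ k x⌋) :=
  Pool.Agent.N18.KM.parts_pink Pool.Agent.N24.RW.crit Pool.Agent.N24.RW.clo Pool.Agent.N24.KM.main
    s Good good_of

end Pool.Agent.Results.MP_28d749_ag.MetricSequences
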