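import Pool.Agent.N514.TH.Pink

/-!
# MP_28d749_ag: one set of density zero for Pink's conjecture for the members, with thin parameters, of all generic families of subvarieties of powers of elliptic schemes

**Families** (as in the starting file `ManyParameters`). The base is the space of all
`s = (a, b, s_1, …, s_r) ∈ ℂ^(2+r)` with `4 a³ + 27 b² ≠ 0`, the fibre at `s` is the `q`-th power of the
elliptic curve `y² = x³ + a x + b`. A family is given by a finite system of polynomials in the
coordinates `(a, b, s_1, …, s_r, x(P_1), …, x(P_q))` and `N` auxiliary coordinates, with the exponents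
`supp k` and the coefficients `b k β`, which are polynomials in `1 + s` variables `t = (t_0; t_1, …, t_s)`
with integral coefficients; the member `X_t` (`OnX`) is the set of the points with all `P_l` different from
the origin for which there is a `y ∈ ℂ^N` such that all polynomials of the system, with the coefficients
evaluated at `t`, vanish.

**Hypersurfaces.** Let `h_1, …, h_M` be polynomials in `t` of degree one in `t_0` (with arbitrary
polynomials in `t_1, …, t_s` as coefficients; in `ManyParameters` they have to be of degree one in all
variables). Each coefficient is supposed to be `h_l ^ e_l · g`, where `g` and `h_l` have no common factor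
of positive degree in `t_0` (`HasOrd`). The condition `GenericP` on the tropicalizations along the `h_l`
(for every set `T` of coordinates and every `ρ` with `|T| + ρ = m + 1` there are an `l` and rational numbers
`τ_i`, `i ∈ T`, such that every point of the tropicalization along `h_l` with the coordinates `τ_i`, `i ∈ T`,
is `ρ`-independent) is the one of the starting files `TropicalLocalCriterion` and `ManyParameters`.

**Thin parameters.** Let `P_0, P_1, P_2, …` be an infinite sequence of generalised polynomials
`P_i(n) = ∑ a_x n ^ x` (finitely many real exponents, real coefficients) with distinct leading exponents,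
which are positive and not integers and have positive coefficients; for example `P_i(n) = n ^ (i + √2)`.

**Theorem.** There is ONE set `E` of positive integers, of density zero in the intervals `(N, 2N]` and
of relative density zero in the PRIMES of these intervals, such that for ALL such families (all `r`, `q`, `s`, all systems of equations, all dimensions `m`, all `h_l`) and all distinct
indices `j_0, …, j_s` the member `X_t` with the parameters

`t = (⌊P_{j_0}(n)⌋; ⌊P_{j_1}(n)⌋, …, ⌊P_{j_s}(n)⌋)`

has no atypical intersection with algebraic subgroups of the fibres (`NoAtypicalP`: for every `ρ` every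
irreducible constructible subset of `X_t ∩ 𝒜^[≥ρ]` has dimension at most `m - ρ`, and the points of
`X_t ∩ 𝒜^[≥ρ]` have transcendence degree at most `m - ρ` over `ℚ`; in particular `X_t ∩ 𝒜^[>m]` is
empty, as in Pink's conjecture), for all but finitely many `n` outside `E`. The set `E` depends only on the
`P_i`; the finite number of further exceptions depends on the family.

The starting file `ManyParameters` counts the exceptional parameters in boxes, `O(B ^ (s + 1/2 + ε))` of
the `(2B+1) ^ (s + 1)` parameters; the parameters `t(n) = (⌊P_0(n)⌋, …, ⌊P_s(n)⌋)`, `n ≤ N`, are only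
`N` of the `N ^ (c_0 + … + c_s)` parameters of the box which contains them (`c_i` the leading exponents),
so that it says nothing about them, nor about prime `n`.

Proof. The classes `t` modulo `p²` for which `h_l(t)` is divisible exactly once by `p` and `g(t)` is not
divisible by `p` have a density of at least `1/(4p)` (`N514.TH.dens_Om`, Schwartz-Zippel in the
variables `t_1, …, t_s`). By Turan's sieve (helper666) almost all `n` have such a prime `p > D`; a
diagonal argument over the countable set of all `(h, g)`, `D` and `j` gives one null set. The local
criterion of the starting library (`coreP`) is satisfied at such primes. The equidistribution of the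
generalised polynomials is by exponential sums (starting library `Y961.JR`, helper files of helper666
and helper924).
-/

set_option autoImplicit false

namespace Pool.Agent.Results.MP_28d749_ag.OneNullSet

open Pool.Agent.R424.MP Pool.Agent.R424.PT
open Pool.Agent.Results.MP_28d749_ag.RandomMultisections (curve)

/-- `c` is the largest exponent of the generalised polynomial `∑ a_x n ^ x`; it is positive and not an
integer and has a positive coefficient. -/
def Admissible (F : Finset ℝ) (a : ℝ → ℝ) (c : ℝ) : Prop :=
  c ∈ F ∧ (∀ x ∈ F, x ≤ c) ∧ 0 < c ∧ (∀ m : ℕ, c ≠ m) ∧ 0 < a c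

/-- The integer part of the value at `n` of the generalised polynomial `P_l`. -/
noncomputable def value (F : ℕ → Finset ℝ) (a : ℕ → ℝ → ℝ) (l n : ℕ) : ℤ :=
  ⌊∑ x ∈ F l, a l x * (n : ℝ) ^ x⌋

/-- `E` has density zero relative to the sets `S N`. -/
def NullIn (S : ℕ → Finset ℕ) (E : Set ℕ) : Prop :=
  ∀ ε : ℝ, 0 < ε → ∃ N₀ : ℕ, ∀ N : ℕ, N₀ ≤ N →
    ({t : ℕ | t ∈ S N ∧ t ∈ E}.ncard : ℝ) ≤ ε * (S N).card

/-- **One set of density zero for Pink's conjecture for all generic families of subvarieties of powers of
elliptic schemes with thin integral parameters.** -/
theorem result (F : ℕ → Finset ℝ) (a : ℕ → ℝ → ℝ) (c : ℕ → ℝ)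
    (hP : ∀ l, Admissible (F l) (a l) (c l)) (hc : Function.Injective c) :
    ∃ E : Set ℕ, NullIn (fun N => Finset.Ioc N (2 * N)) E ∧
      NullIn (fun N => (Finset.Ioc N (2 * N)).filter Nat.Prime) E ∧
      ∀ (κ : Type) [Finite κ] (s r q N m M : ℕ) (j : Fin (s + 1) → ℕ) (_ : Function.Injective j)
        (supp : κ → Finset ((Coord r q ⊕ Fin N) →₀ ℕ))
        (b : κ → ((Coord r q ⊕ Fin N) →₀ ℕ) → Polynomial (MvPolynomial (Fin s) ℤ))
        (h : Fin M → Polynomial (MvPolynomial (Fin s) ℤ)) (_ : ∀ l, (h l).natDegree = 1)
        (e : Fin M → κ → ((Coord r q ⊕ Fin N) →₀ ℕ) → ℕ)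
        (_ : ∀ l k, ∀ β ∈ supp k, HasOrd (h l) (b k β) (e l k β)) (_ : GenericP m supp e),
        {n : ℕ | n ∉ E ∧ ¬ NoAtypicalP m (OnX supp (fun k β =>
          ((ev (value F a (j 0) n) (fun i => value F a (j i.succ) n) (b k β) : ℤ) : ℂ)) :
          ∀ x : Fin 2 ⊕ Fin r → ℂ, (Fin q → (curve (x (Sum.inl 0)) (x (Sum.inl 1))).Point) →
            Prop)}.Finite :=
  Pool.Agent.N514.TH.pinkNull (fun _ => Finset.Subset.refl _) (fun _ => Finset.filter_subset _ _)
    (Pool.Agent.N924.TH.ud_fl hP hc).1 (Pool.Agent.N924.TH.ud_fl hP hc).2

end Pool.Agent.Results.MP_28d749_ag.OneNullSet
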