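import Pool.Agent.N113.EP.Pk

/-!
# Pink's conjecture for products of elliptic curves is a statement on isolated points

Let `E j`, `j ∈ J`, be a finite family of elliptic curves `y² = u (u - 1) (u - lam j)` over the
complex numbers, and `j₀ ∈ J`. We consider all products `A` of powers of the curves `E j`, i.e. the
case of Pink's question in which the base is a point. For `X ⊆ A` let `A^{[> d]}` be the union of
the algebraic subgroups of codimension larger than `d`. The following are equivalent.

* (Pink) For all products `A` and all irreducible closed `X ⊆ A` which are contained in no proper
  algebraic subgroup, `X ∩ A^{[> dim X]}` is not Zariski dense in `X`.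
* For all `M`, all maps `k` from `{1, …, M}` to `J` and all sets `S` of pairs `(i, c)`, `i ≤ M`,
  `c ∈ {0, 1}`, there are numbers `c_x`, `x ∈ S`, algebraically independent over `ℚ(lam j : j ∈ J)`,
  such that the slice `u (P x) = c_x`, `x ∈ S`, of the product over `i` of the surfaces
  `{(P, Q, R) : P, Q, R ≠ 0, u(P) + u(Q) + u(R) = 0}` in `E j₀ × E j₀ × E (k i)` has only finitely
  many optimal points.

The slice is a product of surfaces, of curves `{(Q, R) : u(Q) + u(R) = -c_x}` and of points.

That the second statement implies the finiteness of all optimal subvarieties (and is equivalent to it)
is `MP_defd1c_ag.OptimalPointsElliptic`. New here is Pink's form of the conjecture, in both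
directions: it follows from the finiteness of the optimal subvarieties, and it implies the finiteness
of the optimal points of every closed subset (by the projections to those coordinates between which
there is no relation at the generic point).
-/

set_option autoImplicit false

namespace Pool.Agent.Results.MP_28d749_ag.OptimalPointsOfSlices

open Pool.Agent.N113.EP

/-- **Pink's conjecture for all products of powers of the curves `E j` is equivalent to the
finiteness of the optimal points of generic slices of the products of the surfaces
`u(P) + u(Q) + u(R) = 0`.** -/
theorem result {J : Type} [Fintype J] (lam : J → ℂ) (h0 : ∀ j, lam j ≠ 0) (h1 : ∀ j, lam j ≠ 1)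
    (j₀ : J) :
    Pink (fun j => leg (lam j)) ↔
      ∀ (M : ℕ) (k : Fin M → J) (S : Finset (Fin M × Fin 3)), (∀ x ∈ S, x.2 ≠ 2) →
        ∃ c : Fin M × Fin 3 → ℂ,
          AlgebraicIndependent (Algebra.adjoin ℤ (Set.range lam)) (fun x : S => c x) ∧
          {P | Optimal {P} (closure (slice (fun j => leg (lam j)) j₀ k S c))}.Finite :=
  (main_pink lam h0 h1 j₀).2

end Pool.Agent.Results.MP_28d749_ag.OptimalPointsOfSlices
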