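import Pool.Agent.N383.ORB.Pink
import Pool.Agent.N24.RW.All

/-!
# MP_28d749_ag: Pink's conjecture along the random orbits of Zariski dense groups of parameters

**The families** are those of `ManyParameters`. The base is the space of all
`s = (a, b, s_1, …, s_r) ∈ ℂ^(2+r)` with `4 a³ + 27 b² ≠ 0`, the fibre at `s` is the `q`-th power of the
elliptic curve `y² = x³ + a x + b` (`curve`). A family is a finite system of polynomials in the
coordinates `(a, b, s_1, …, s_r, x(P_1), …, x(P_q))` and `N` auxiliary coordinates with the exponents
`supp j` and the coefficients `c j β ∈ ℤ[t_1, …, t_k][t_0]` (`k` is called `s` in the theorem); the member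
`X_t` (`OnX`) is the set of the points `(P_1, …, P_q)`, with all `P_l` different from the origin, for which
there is a `y ∈ ℂ^N` with which all the equations with the coefficients evaluated at `t` hold.

**The condition** is the one of `ManyParameters` for hypersurfaces `h_1, …, h_M` of degree one in `t_0`
(`HasOrd`, `GenericP`: the tropicalizations of the family along these hypersurfaces); the coefficients of
`h_l`, also the leading one, may be any polynomials in `t_1, …, t_k`.

**Random orbits.** Let `s_0, …, s_m` be matrices in `SL_ν(ℤ)`, `|ν| ≥ 2`, which generate `SL_ν(ℤ/q)` for
all `q` prime to some `q₀` (`Walk`; by strong approximation all finite sets of matrices which generate a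
Zariski dense subgroup of `SL_ν` are of this kind, also if the index of the subgroup is infinite), let
`v ∈ ℤ^ν` be different from zero, and let `v, s_{w 0} v, s_{w 1} s_{w 0} v, …` be the random orbit (`orb`)
for independent uniformly distributed indices `w n` (`words`).

**Theorem.** For almost every `w` there is a set `E` of times of density zero such that for ALL such
families, with all numbers `k`, `r`, `q`, `N`, all systems of equations and all injective choices of
`1 + k` coordinates of the orbit as parameters, the member `X_t` of the parameters `t` at the time `n` has
no atypical intersection with algebraic subgroups of the fibres (`NoAtypicalP`), for all but finitely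
many `n` outside `E`.

Only polynomially many of the vectors of a ball are in the orbit of a thin group, and the random
orbit meets only logarithmically many of them; so the theorem does not follow from the bound
for the boxes in `ManyParameters`, which allows `B^(k + 1/2 + ε)` exceptions.

The proof: the local criterion of `ManyParameters` is satisfied outside a set of parameter vectors whose
closure in the product of the `ℤ_p^ν` over the `p` prime to any `M` has measure zero (the density of
the residue classes modulo `p²` is from helper514, the sieve from helper300), such sets are visited by
the random orbit only at a set of times of density zero (helper24, helper123, helper543, helper195),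
and there are only countably many pairs of coprime polynomials which decide.
-/

set_option autoImplicit false

namespace Pool.Agent.Results.MP_28d749_ag.RandomOrbits

open MeasureTheory Filter Topology Pool.Agent.N24.RW
open Pool.Agent.R424.MP Pool.Agent.R424.PT
open Pool.Agent.Results.MP_28d749_ag.RandomMultisections (curve)

/-- **Pink's conjecture along random orbits**: for almost every random orbit of a vector of parameters
under a Zariski dense group of integral matrices there is one set of times of density zero outside of
which, up to finitely many times, the members of any generic family of subvarieties of the powers of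
elliptic schemes have no atypical intersection with algebraic subgroups. -/
theorem result (ν : Type) [Fintype ν] [DecidableEq ν] (hν : 2 ≤ Fintype.card ν) (W : Walk ν)
    (v : ν → ℤ) (hv : v ≠ 0) :
    ∀ᵐ w ∂(words W.m), ∃ E : Set ℕ,
      Tendsto (fun T : ℕ => (({n : ℕ | n < T ∧ n ∈ E}.ncard : ℕ) : ℝ) / (T : ℝ)) atTop (𝓝 0) ∧
      ∀ (s r q N m M : ℕ) (f : Fin (s + 1) → ν), Function.Injective f →
        ∀ (κ : Type) [Finite κ] (supp : κ → Finset ((Coord r q ⊕ Fin N) →₀ ℕ))
          (c : κ → ((Coord r q ⊕ Fin N) →₀ ℕ) → Polynomial (MvPolynomial (Fin s) ℤ))
          (h : Fin M → Polynomial (MvPolynomial (Fin s) ℤ)), (∀ l, (h l).natDegree = 1) →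
          ∀ e : Fin M → κ → ((Coord r q ⊕ Fin N) →₀ ℕ) → ℕ,
            (∀ l j, ∀ β ∈ supp j, HasOrd (h l) (c j β) (e l j β)) → GenericP m supp e →
            {n : ℕ | n ∉ E ∧ ¬ NoAtypicalP m (OnX supp (fun j β =>
                ((ev (orb W v w n (f 0)) (fun i => orb W v w n (f i.succ)) (c j β) : ℤ) : ℂ)) :
              ∀ x : Fin 2 ⊕ Fin r → ℂ,
                (Fin q → (curve (x (Sum.inl 0)) (x (Sum.inl 1))).Point) → Prop)}.Finite :=
  Pool.Agent.N383.ORB.pink_orbits crit clo main hν W v hv

end Pool.Agent.Results.MP_28d749_ag.RandomOrbits
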